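import Mathlib
import Pool.Agent.N781.A.Stm

/-! Closed form of the iterated multiplicative derivatives (`S_SHAPE`). -/

namespace Pool.Agent.N424.A

open Finset Pool.Agent.N675 Pool.Agent.N781.A

/-- an average over `1..H` of a box average is a box average -/
lemma avr_ER {Z : Type} [Fintype Z] [DecidableEq Z] (H : ℕ) (G : ℤ → (Z → ℤ) → ℝ) :
    avr H (fun h => ER (fun _ : Z => H) (G h))
      = ER (fun _ : Option Z => H) (fun l => G (l none) (fun z => l (some z))) := by
  unfold avr ER
  rw [Fintype.prod_option, ← Finset.sum_div, div_div, mul_comm (∏ _s : Z, (H : ℝ)) (H : ℝ),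
    ← Finset.sum_product']
  congr 1
  refine Finset.sum_nbij' (fun p => fun o => o.elim p.1 p.2)
    (fun l => (l none, fun z => l (some z))) ?_ ?_ ?_ ?_ ?_
  · rintro ⟨h, l⟩ hp
    rw [Finset.mem_product, Finset.mem_Icc, mem_Box] at hp
    rw [mem_Box]
    rintro (_ | z)
    · exact hp.1
    · exact hp.2 z
  · intro l hl
    rw [mem_Box] at hl
    rw [Finset.mem_product, Finset.mem_Icc, mem_Box]
    exact ⟨hl none, fun z => hl (some z)⟩
  · rintro ⟨h, l⟩ _
    rfl
  · intro l _
    funext o
    cases o <;> rfl
  · rintro ⟨h, l⟩ _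
    rfl

lemma cj_mul (b : Bool) (z w : ℂ) : cj b (z * w) = cj b z * cj b w := by
  unfold cj
  split_ifs
  · exact map_mul _ _ _
  · rfl

lemma cj_conj (b : Bool) (z : ℂ) : cj b ((starRingEnd ℂ) z) = cj (!b) z := by
  unfold cj
  cases b <;> simp

theorem shape : S_SHAPE := by
  intro j
  induction j with
  | zero =>
    refine ⟨Empty, Unit, inferInstance, inferInstance, inferInstance, inferInstance,
      inferInstance, fun _ z => z.elim, fun _ => false, ?_⟩
    intro Ξ t H c
    have h1 : ∀ l : Empty → ℤ, cub (I := Unit) (fun _ (z : Empty) => (z.elim : ℤ))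
        (fun _ => false) c (t : ℤ) l = c := by
      intro l
      funext d
      simp [cub, cj, LL]
    simp only [h1]
    unfold ER
    have h2 : (Box (fun _ : Empty => H)) = Finset.univ := by
      ext y
      simp only [mem_Box, Finset.mem_univ, iff_true]
      exact fun s => s.elim
    rw [h2]
    simp [GX]
  | succ j ih =>
    obtain ⟨Z, I, _, _, _, _, _, φ, σ, hyp⟩ := ih
    refine ⟨Option (Option Z), I × Bool, inferInstance, inferInstance, inferInstance,
      inferInstance, inferInstance,
      fun ib o => o.elim (if ib.2 then 0 else 1)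
        (fun o' => o'.elim (if ib.2 then 1 else 0) (fun z => φ ib.1 z)),
      fun ib => xor (σ ib.1) ib.2, ?_⟩
    intro Ξ t H c
    rw [List.replicate_succ]
    have e1 : GX Ξ ((t, H) :: List.replicate j (t, H)) c
        = avr H fun h => avr H fun h' => ER (fun _ : Z => H) fun l =>
            Ξ (cub φ σ (Dl (t * h) (t * h') c) t l) := by
      show (avr H fun h => avr H fun h' =>
        GX Ξ (List.replicate j (t, H)) (Dl (t * h) (t * h') c)) = _
      simp only [hyp]
    rw [e1]
    have e2 : (avr H fun h => avr H fun h' => ER (fun _ : Z => H) fun l =>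
            Ξ (cub φ σ (Dl (t * h) (t * h') c) t l))
        = avr H fun h => ER (fun _ : Option Z => H) fun l =>
            Ξ (cub φ σ (Dl (t * h) (t * (l none)) c) t (fun z => l (some z))) := by
      congr 1
      funext h
      exact avr_ER H (fun h' l => Ξ (cub φ σ (Dl (t * h) (t * h') c) t l))
    rw [e2, avr_ER H (fun h (l : Option Z → ℤ) =>
      Ξ (cub φ σ (Dl (t * h) (t * (l none)) c) t (fun z => l (some z))))]
    congr 1
    funext l
    congr 1
    funext d
    unfold cub
    rw [Fintype.prod_prod_type]
    refine Finset.prod_congr rfl fun i _ => ?_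
    rw [Fintype.prod_bool]
    simp only [Dl, LL, cj_mul, cj_conj, Fintype.sum_option, Option.elim]
    rw [mul_comm]
    congr 1
    · simp
      congr 2
      ring
    · simp
      congr 2
      ring

end Pool.Agent.N424.A
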